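import Mathlib

set_option autoImplicit false

namespace Pool.Agent.Results.MP_209919_co.RationalSpheres

open Set

/-- the property of the question for a given centre -/
def HasSet (d : ℕ) (c : EuclideanSpace ℝ (Fin d)) (ρ : ℝ) : Prop :=
  ∃ X : Set (EuclideanSpace ℝ (Fin d)), X ⊆ Metric.sphere c ρ ∧ X.Infinite ∧
    (∀ x ∈ X, ∀ y ∈ X, ∃ q : ℚ, dist x y = q) ∧
    (∀ (n : EuclideanSpace ℝ (Fin d)) (t : ℝ), n ≠ 0 → ∃ x ∈ X, inner ℝ n x ≠ t)

lemma hasSet_translate {d : ℕ} {ρ : ℝ} (c : EuclideanSpace ℝ (Fin d)) (h : HasSet d 0 ρ) :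
    HasSet d c ρ := by
  obtain ⟨X, h1, h2, h3, h4⟩ := h
  refine ⟨(fun x => c + x) '' X, ?_, ?_, ?_, ?_⟩
  · rintro _ ⟨x, hx, rfl⟩
    have := h1 hx
    simpa using this
  · exact h2.image (by intro a _ b _ hab; simpa using hab)
  · rintro _ ⟨x, hx, rfl⟩ _ ⟨y, hy, rfl⟩
    obtain ⟨q, hq⟩ := h3 x hx y hy
    exact ⟨q, by simpa using hq⟩
  · intro n t hn
    obtain ⟨x, hx, hxt⟩ := h4 n (t - inner ℝ n c) hn
    refine ⟨c + x, ⟨x, hx, rfl⟩, ?_⟩
    rw [inner_add_right]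
    intro h
    apply hxt
    linarith

/-- rational parametrisation of `x ^ 2 + q y ^ 2 = 1` -/
noncomputable def px (q : ℚ) (m : ℕ) : ℚ := (1 - q * m ^ 2) / (1 + q * m ^ 2)
noncomputable def py (q : ℚ) (m : ℕ) : ℚ := 2 * m / (1 + q * m ^ 2)

lemma pxy {q : ℚ} (hq : 0 < q) (m : ℕ) : (px q m) ^ 2 + q * (py q m) ^ 2 = 1 := by
  unfold px py
  have : (1 + q * (m:ℚ) ^ 2) ≠ 0 := by positivity
  field_simp
  ring

lemma pcross {q : ℚ} (hq : 0 < q) (m n : ℕ) : py q m * px q n - px q m * py q n =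
    2 * (m - n) * (1 + q * m * n) / ((1 + q * m ^ 2) * (1 + q * n ^ 2)) := by
  unfold px py
  have h1 : (1 + q * (m:ℚ) ^ 2) ≠ 0 := by positivity
  have h2 : (1 + q * (n:ℚ) ^ 2) ≠ 0 := by positivity
  field_simp
  ring

lemma pcross_ne {q : ℚ} (hq : 0 < q) {m n : ℕ} (hmn : m ≠ n) :
    py q m * px q n - px q m * py q n ≠ 0 := by
  rw [pcross hq]
  have h1 : (1 + q * (m:ℚ) ^ 2) ≠ 0 := by positivity
  have h2 : (1 + q * (n:ℚ) ^ 2) ≠ 0 := by positivity
  have h3 : (1 + q * (m:ℚ) * n) ≠ 0 := by positivity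
  have h4 : ((m:ℚ) - n) ≠ 0 := by
    intro h
    apply hmn
    have : (m:ℚ) = n := by linarith
    exact_mod_cast this
  positivity

noncomputable def P (ρ : ℝ) (q : ℚ) (m : ℕ) : EuclideanSpace ℝ (Fin 2) :=
  !₂[ρ * ((px q m) ^ 2 - q * (py q m) ^ 2), 2 * q * px q m * py q m]

lemma P_dist {ρ : ℝ} {q : ℚ} (hq : 0 < q) (hρ : ρ ^ 2 = q) (m n : ℕ) :
    dist (P ρ q m) (P ρ q n) = 2 * q * |((py q m * px q n - px q m * py q n : ℚ) : ℝ)| := by
  have hm : (px q m : ℝ) ^ 2 + q * (py q m : ℝ) ^ 2 = 1 := by exact_mod_cast pxy hq m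
  have hn : (px q n : ℝ) ^ 2 + q * (py q n : ℝ) ^ 2 = 1 := by exact_mod_cast pxy hq n
  rw [EuclideanSpace.dist_eq]
  simp only [Fin.sum_univ_two, P, Real.dist_eq, sq_abs]
  have hq' : (0:ℝ) < q := by exact_mod_cast hq
  have e : 2 * (q:ℝ) * |((py q m * px q n - px q m * py q n : ℚ) : ℝ)| =
      |2 * (q:ℝ) * ((py q m * px q n - px q m * py q n : ℚ) : ℝ)| := by
    rw [abs_mul, abs_of_pos (by positivity : 0 < 2 * (q:ℝ))]
  rw [e, ← Real.sqrt_sq_eq_abs]
  congr 1
  push_cast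
  show (ρ * ((px q m : ℝ) ^ 2 - q * (py q m : ℝ) ^ 2) - ρ * ((px q n : ℝ) ^ 2 - q * (py q n : ℝ) ^ 2)) ^ 2
    + (2 * q * px q m * py q m - 2 * q * px q n * py q n) ^ 2 = _
  set x := (px q m : ℝ)
  set y := (py q m : ℝ)
  set x' := (px q n : ℝ)
  set y' := (py q n : ℝ)
  linear_combination ((x ^ 2 - q * y ^ 2 - (x' ^ 2 - q * y' ^ 2)) ^ 2) * hρ
    + (q * (x^2 + q * y^2 - x'^2 - q * y'^2)) * hm - (q * (x^2 + q * y^2 - x'^2 - q * y'^2)) * hn


lemma P_mem {ρ : ℝ} {q : ℚ} (hq : 0 < q) (hρ0 : 0 < ρ) (hρ : ρ ^ 2 = q) (m : ℕ) :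
    P ρ q m ∈ Metric.sphere (0 : EuclideanSpace ℝ (Fin 2)) ρ := by
  have hm : (px q m : ℝ) ^ 2 + q * (py q m : ℝ) ^ 2 = 1 := by exact_mod_cast pxy hq m
  rw [mem_sphere_zero_iff_norm, EuclideanSpace.norm_eq, Real.sqrt_eq_iff_mul_self_eq (by positivity) hρ0.le]
  simp only [Fin.sum_univ_two, Real.norm_eq_abs, sq_abs]
  show (ρ * ((px q m : ℝ) ^ 2 - q * (py q m : ℝ) ^ 2)) ^ 2 + (2 * q * px q m * py q m) ^ 2 = ρ * ρ
  set x := (px q m : ℝ)
  set y := (py q m : ℝ)
  linear_combination ((x ^ 2 - q * y ^ 2) ^ 2 - 1) * hρ + (q * (x ^ 2 + q * y ^ 2 + 1)) * hm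

lemma base {ρ : ℝ} {q : ℚ} (hq : 0 < q) (hρ0 : 0 < ρ) (hρ : ρ ^ 2 = q) :
    HasSet 2 0 ρ := by
  have hinj : Function.Injective (P ρ q) := by
    intro m n hmn
    by_contra hne
    have h1 := P_dist hq hρ m n
    rw [hmn, dist_self] at h1
    have h2 := pcross_ne hq hne
    have h3 : ((py q m * px q n - px q m * py q n : ℚ) : ℝ) ≠ 0 := by exact_mod_cast h2
    have hq' : (0:ℝ) < q := by exact_mod_cast hq
    have : 0 < 2 * (q:ℝ) * |((py q m * px q n - px q m * py q n : ℚ) : ℝ)| := by positivity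
    linarith
  refine ⟨range (P ρ q), ?_, infinite_range_of_injective hinj, ?_, ?_⟩
  · rintro _ ⟨m, rfl⟩
    exact P_mem hq hρ0 hρ m
  · rintro _ ⟨m, rfl⟩ _ ⟨n, rfl⟩
    refine ⟨2 * q * |py q m * px q n - px q m * py q n|, ?_⟩
    rw [P_dist hq hρ]
    push_cast
    rfl
  · intro n t hn
    by_contra hcon
    push Not at hcon
    apply hn
    have hi : ∀ m : ℕ, n 0 * (ρ * ((px q m : ℝ) ^ 2 - q * (py q m : ℝ) ^ 2)) +
        n 1 * (2 * q * px q m * py q m) = t := by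
      intro m
      have := hcon (P ρ q m) ⟨m, rfl⟩
      rw [← this]
      simp only [PiLp.inner_apply, Fin.sum_univ_two, P]
      simp
      ring
    have h0 := hi 0
    have hpx0 : px q 0 = 1 := by simp [px]
    have hpy0 : py q 0 = 0 := by simp [py]
    rw [hpx0, hpy0] at h0
    push_cast at h0
    have hq' : (0:ℝ) < q := by exact_mod_cast hq
    have hk : ∀ m : ℕ, m ≠ 0 → n 0 * ρ * (py q m : ℝ) = n 1 * px q m := by
      intro m hm0
      have h1 := hi m
      have hm : (px q m : ℝ) ^ 2 + q * (py q m : ℝ) ^ 2 = 1 := by exact_mod_cast pxy hq m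
      have hy : (py q m : ℝ) ≠ 0 := by
        have : py q m ≠ 0 := by
          unfold py
          have h2 : (m:ℚ) ≠ 0 := by exact_mod_cast hm0
          have h3 : (1 + q * (m:ℚ) ^ 2) ≠ 0 := by positivity
          positivity
        exact_mod_cast this
      have h2 : (2 * (q:ℝ) * (py q m : ℝ)) * (n 0 * ρ * (py q m : ℝ) - n 1 * px q m) = 0 := by
        linear_combination h0 - h1 + n 0 * ρ * hm
      have h3 : (2 * (q:ℝ) * (py q m : ℝ)) ≠ 0 := by
        apply mul_ne_zero (by positivity) hy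
      have := (mul_eq_zero.1 h2).resolve_left h3
      linarith
    have k1 := hk 1 (by norm_num)
    have k2 := hk 2 (by norm_num)
    have hc := pcross_ne hq (m := 1) (n := 2) (by norm_num)
    have hc' : (py q 1 : ℝ) * px q 2 - px q 1 * py q 2 ≠ 0 := by exact_mod_cast hc
    have n0 : n 0 = 0 := by
      have : (n 0 * ρ) * ((py q 1 : ℝ) * px q 2 - px q 1 * py q 2) = 0 := by
        linear_combination (px q 2 : ℝ) * k1 - (px q 1 : ℝ) * k2
      have := (mul_eq_zero.1 this).resolve_right hc'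
      exact (mul_eq_zero.1 this).resolve_right hρ0.ne'
    have n1 : n 1 = 0 := by
      have : (n 1) * ((py q 1 : ℝ) * px q 2 - px q 1 * py q 2) = 0 := by
        linear_combination (py q 2 : ℝ) * k1 - (py q 1 : ℝ) * k2
      exact (mul_eq_zero.1 this).resolve_right hc'
    ext i
    fin_cases i
    · simpa using n0
    · simpa using n1


/-- add a coordinate in front -/
noncomputable def lift {d : ℕ} (h : ℝ) (x : EuclideanSpace ℝ (Fin d)) :
    EuclideanSpace ℝ (Fin (d + 1)) :=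
  WithLp.toLp 2 (Fin.cons h (fun i => x i) : Fin (d + 1) → ℝ)

lemma lift_zero {d : ℕ} (h : ℝ) (x : EuclideanSpace ℝ (Fin d)) : lift h x 0 = h := rfl
lemma lift_succ {d : ℕ} (h : ℝ) (x : EuclideanSpace ℝ (Fin d)) (i : Fin d) :
    lift h x i.succ = x i := rfl

lemma lift_dist_sq {d : ℕ} (h h' : ℝ) (x y : EuclideanSpace ℝ (Fin d)) :
    dist (lift h x) (lift h' y) ^ 2 = (h - h') ^ 2 + dist x y ^ 2 := by
  rw [EuclideanSpace.dist_eq, EuclideanSpace.dist_eq, Real.sq_sqrt (by positivity),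
    Real.sq_sqrt (by positivity), Fin.sum_univ_succ]
  simp only [lift_zero, lift_succ, Real.dist_eq, sq_abs]

lemma lift_norm_sq {d : ℕ} (h : ℝ) (x : EuclideanSpace ℝ (Fin d)) :
    ‖lift h x‖ ^ 2 = h ^ 2 + ‖x‖ ^ 2 := by
  rw [EuclideanSpace.norm_sq_eq, EuclideanSpace.norm_sq_eq, Fin.sum_univ_succ]
  simp only [lift_zero, lift_succ, Real.norm_eq_abs, sq_abs]

lemma lift_inner {d : ℕ} (n : EuclideanSpace ℝ (Fin (d + 1))) (h : ℝ) (x : EuclideanSpace ℝ (Fin d)) :
    inner ℝ n (lift h x) = n 0 * h + inner ℝ (WithLp.toLp 2 (fun i => n i.succ) : EuclideanSpace ℝ (Fin d)) x := by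
  simp only [PiLp.inner_apply, Fin.sum_univ_succ, lift_zero, lift_succ]
  simp [mul_comm]

lemma step {d : ℕ} (ih : ∀ (ρ : ℝ) (q : ℚ), 0 < q → 0 < ρ → ρ ^ 2 = q → HasSet d 0 ρ)
    {ρ : ℝ} {q : ℚ} (hq : 0 < q) (hρ0 : 0 < ρ) (hρ : ρ ^ 2 = q) : HasSet (d + 1) 0 ρ := by
  obtain ⟨D, hD0, hDρ⟩ := exists_rat_btwn hρ0
  have hD0' : 0 < D := by exact_mod_cast hD0
  have hq' : (0:ℝ) < q := by exact_mod_cast hq
  -- squared radius of the section
  have hDq : (D:ℝ) ^ 2 < q := by rw [← hρ]; exact pow_lt_pow_left₀ hDρ hD0.le two_ne_zero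
  have hDq' : D ^ 2 < q := by exact_mod_cast hDq
  set r2 : ℚ := D ^ 2 - D ^ 4 / (4 * q) with hr2
  have hr2pos : 0 < r2 := by
    have : r2 = D ^ 2 * (4 * q - D ^ 2) / (4 * q) := by
      rw [hr2]; field_simp
    rw [this]
    have : 0 < 4 * q - D ^ 2 := by linarith
    positivity
  have hr2pos' : (0:ℝ) < r2 := by exact_mod_cast hr2pos
  set r := Real.sqrt r2 with hr
  have hr0 : 0 < r := Real.sqrt_pos.2 hr2pos'
  have hrsq : r ^ 2 = r2 := Real.sq_sqrt hr2pos'.le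
  obtain ⟨X, h1, h2, h3, h4⟩ := ih r r2 hr2pos hr0 hrsq
  set h : ℝ := ρ - D ^ 2 / (2 * ρ) with hh
  have er2 : (r2:ℝ) = D ^ 2 - D ^ 4 / (4 * ρ ^ 2) := by rw [hr2, hρ]; push_cast; ring
  have hnorm : h ^ 2 + r ^ 2 = ρ ^ 2 := by
    rw [hrsq, er2, hh]; field_simp; ring
  have hpole : (h - ρ) ^ 2 + r ^ 2 = D ^ 2 := by
    rw [hrsq, er2, hh]; field_simp; ring
  have hne : h ≠ ρ := by
    have : 0 < (D:ℝ) ^ 2 / (2 * ρ) := by positivity
    rw [hh]; intro h; linarith
  have linj : Function.Injective (lift (d := d) h) := by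
    intro x y hxy
    have := lift_dist_sq h h x y
    rw [hxy, dist_self] at this
    have : dist x y ^ 2 = 0 := by linarith
    exact dist_eq_zero.1 (pow_eq_zero_iff two_ne_zero |>.1 this)
  have hXn : ∀ x ∈ X, ‖x‖ = r := fun x hx => by simpa using h1 hx
  refine ⟨lift h '' X ∪ {lift ρ 0}, ?_, ?_, ?_, ?_⟩
  · rintro _ (⟨x, hx, rfl⟩ | rfl)
    · rw [mem_sphere_zero_iff_norm]
      have := lift_norm_sq h x
      rw [hXn x hx, hnorm] at this
      exact (pow_left_inj₀ (norm_nonneg _) hρ0.le two_ne_zero).1 this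
    · rw [mem_sphere_zero_iff_norm]
      have := lift_norm_sq ρ (0 : EuclideanSpace ℝ (Fin d))
      rw [norm_zero] at this
      refine (pow_left_inj₀ (norm_nonneg _) hρ0.le two_ne_zero).1 ?_
      rw [this]; ring
  · exact (h2.image linj.injOn).mono subset_union_left
  · have key : ∀ x ∈ X, dist (lift h x) (lift ρ 0) = D := by
      intro x hx
      have := lift_dist_sq h ρ x 0
      rw [dist_zero_right, hXn x hx, hpole] at this
      exact (pow_left_inj₀ dist_nonneg hD0.le two_ne_zero).1 this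
    rintro _ (⟨x, hx, rfl⟩ | rfl) _ (⟨y, hy, rfl⟩ | rfl)
    · obtain ⟨s, hs⟩ := h3 x hx y hy
      refine ⟨s, ?_⟩
      have := lift_dist_sq h h x y
      rw [sub_self] at this
      rw [← hs]
      exact (pow_left_inj₀ dist_nonneg dist_nonneg two_ne_zero).1 (by linarith)
    · exact ⟨D, key x hx⟩
    · exact ⟨D, by rw [dist_comm]; exact key y hy⟩
    · exact ⟨0, by simp⟩
  · intro n t hn
    by_contra hcon
    push Not at hcon
    have hp := hcon (lift ρ 0) (Or.inr rfl)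
    rw [lift_inner, inner_zero_right, add_zero] at hp
    set n' : EuclideanSpace ℝ (Fin d) := WithLp.toLp 2 (fun i => n i.succ) with hn'
    by_cases hn0 : n' = 0
    · have hX : X.Nonempty := h2.nonempty
      obtain ⟨x, hx⟩ := hX
      have := hcon (lift h x) (Or.inl ⟨x, hx, rfl⟩)
      rw [lift_inner, ← hn', hn0, inner_zero_left, add_zero] at this
      have h5 : n 0 * (h - ρ) = 0 := by linarith
      have h6 : n 0 = 0 := (mul_eq_zero.1 h5).resolve_right (sub_ne_zero.2 hne)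
      apply hn
      ext i
      refine Fin.cases ?_ (fun j => ?_) i
      · simpa using h6
      · have : n' j = 0 := by rw [hn0]; rfl
        simpa [hn'] using this
    · obtain ⟨x, hx, hxt⟩ := h4 n' (t - n 0 * h) hn0
      apply hxt
      have := hcon (lift h x) (Or.inl ⟨x, hx, rfl⟩)
      rw [lift_inner, ← hn'] at this
      linarith

lemma exists_all (k : ℕ) : ∀ (ρ : ℝ) (q : ℚ), 0 < q → 0 < ρ → ρ ^ 2 = q → HasSet (k + 2) 0 ρ := by
  induction k with
  | zero => intro ρ q hq hρ0 hρ; exact base hq hρ0 hρ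
  | succ k ih => intro ρ q hq hρ0 hρ; exact step ih hq hρ0 hρ

/-- a rational set spanning the space has rational squared circumradius -/
lemma radius_rational {d : ℕ} {c : EuclideanSpace ℝ (Fin d)} {ρ : ℝ}
    {X : Set (EuclideanSpace ℝ (Fin d))} (h1 : X ⊆ Metric.sphere c ρ) (h2 : X.Nonempty)
    (h3 : ∀ x ∈ X, ∀ y ∈ X, ∃ q : ℚ, dist x y = q)
    (h4 : ∀ (n : EuclideanSpace ℝ (Fin d)) (t : ℝ), n ≠ 0 → ∃ x ∈ X, inner ℝ n x ≠ t) :
    ∃ q : ℚ, ρ ^ 2 = q := by
  obtain ⟨x0, hx0⟩ := h2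
  set S : Set (EuclideanSpace ℝ (Fin d)) := (fun x => x - x0) '' X with hS
  -- S spans
  have hspan : Submodule.span ℝ S = ⊤ := by
    by_contra hne
    have hne' : (Submodule.span ℝ S)ᗮ ≠ ⊥ := by
      intro hbot
      exact hne (Submodule.orthogonal_eq_bot_iff.1 hbot)
    obtain ⟨n, hn, hn0⟩ := Submodule.exists_mem_ne_zero_of_ne_bot hne'
    obtain ⟨x, hx, hxt⟩ := h4 n (inner ℝ n x0) hn0
    apply hxt
    have h5 : inner ℝ (x - x0) n = 0 :=
      (Submodule.mem_orthogonal _ n).1 hn _ (Submodule.subset_span ⟨x, hx, rfl⟩)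
    rw [real_inner_comm, inner_sub_right] at h5
    linarith
  obtain ⟨b, hbS, hbspan, hbli⟩ := exists_linearIndependent ℝ S
  have hfin : b.Finite := hbli.setFinite
  have : Fintype b := hfin.fintype
  -- representatives in X
  have hrep : ∀ i : b, ∃ x ∈ X, (i : EuclideanSpace ℝ (Fin d)) = x - x0 := by
    intro i
    obtain ⟨x, hx, hxe⟩ := hbS i.2
    exact ⟨x, hx, hxe.symm⟩
  choose x hxX hxe using hrep
  have hx0n : ∀ i : b, ∃ q : ℚ, ‖(i : EuclideanSpace ℝ (Fin d))‖ ^ 2 = q := by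
    intro i
    obtain ⟨q, hq⟩ := h3 (x i) (hxX i) x0 hx0
    refine ⟨q ^ 2, ?_⟩
    rw [hxe i, ← dist_eq_norm, hq]; push_cast; rfl
  have hgram : ∀ i j : b, ∃ q : ℚ, inner ℝ (i : EuclideanSpace ℝ (Fin d)) (j : EuclideanSpace ℝ (Fin d)) = q := by
    intro i j
    obtain ⟨q1, hq1⟩ := hx0n i
    obtain ⟨q2, hq2⟩ := hx0n j
    obtain ⟨q3, hq3⟩ := h3 (x i) (hxX i) (x j) (hxX j)
    have e : ‖(i : EuclideanSpace ℝ (Fin d)) - (j : EuclideanSpace ℝ (Fin d))‖ ^ 2 = q3 ^ 2 := by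
      rw [hxe i, hxe j, ← hq3, dist_eq_norm]
      congr 2
      abel
    rw [norm_sub_sq_real, hq1, hq2] at e
    refine ⟨(q1 + q2 - q3 ^ 2) / 2, ?_⟩
    push_cast
    linarith
  choose nq hnq using hx0n
  choose G hG using hgram
  -- the vector from x0 to the centre
  set u := c - x0 with hu
  have hun : ‖u‖ = ρ := by
    have := h1 hx0
    rw [Metric.mem_sphere, dist_comm, dist_eq_norm] at this
    exact this
  have hub : ∀ i : b, inner ℝ (i : EuclideanSpace ℝ (Fin d)) u = (nq i / 2 : ℚ) := by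
    intro i
    have h5 := h1 (hxX i)
    rw [Metric.mem_sphere, dist_comm, dist_eq_norm] at h5
    have h6 : c - x i = u - (i : EuclideanSpace ℝ (Fin d)) := by rw [hxe i, hu]; abel
    have h7 : ‖u - (i : EuclideanSpace ℝ (Fin d))‖ ^ 2 = ‖u‖ ^ 2 := by rw [← h6, h5, hun]
    rw [norm_sub_sq_real, hnq i, real_inner_comm] at h7
    push_cast
    linarith
  -- solve the rational linear system
  set M : Matrix b b ℚ := Matrix.of G with hM
  have hinj : Function.Injective M.mulVec := by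
    rw [← Matrix.coe_mulVecLin, injective_iff_map_eq_zero]
    intro s hs
    have hcomb : ‖∑ i : b, ((s i : ℝ)) • (i : EuclideanSpace ℝ (Fin d))‖ ^ 2 = 0 := by
      rw [← real_inner_self_eq_norm_sq, sum_inner]
      simp_rw [inner_sum, inner_smul_left, inner_smul_right, hG]
      have hs' : ∀ i, ∑ j, (G i j : ℝ) * (s j : ℝ) = 0 := by
        intro i
        have h8 : (M.mulVecLin s) i = 0 := by rw [hs]; rfl
        have h9 : ∑ j, G i j * s j = 0 := h8
        exact_mod_cast h9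
      apply Finset.sum_eq_zero
      intro i _
      have h10 := hs' i
      simp only [conj_trivial]
      have : ∑ j, (s i : ℝ) * ((s j : ℝ) * (G i j : ℝ)) = (s i : ℝ) * ∑ j, (G i j : ℝ) * (s j : ℝ) := by
        rw [Finset.mul_sum]
        apply Finset.sum_congr rfl
        intro j _; ring
      rw [this, h10, mul_zero]
    have hcomb' : ∑ i : b, ((s i : ℝ)) • (i : EuclideanSpace ℝ (Fin d)) = 0 := by
      have := pow_eq_zero_iff two_ne_zero |>.1 hcomb
      exact norm_eq_zero.1 this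
    have hli := Fintype.linearIndependent_iff.1 hbli (fun i => (s i : ℝ)) hcomb'
    funext i
    have := hli i
    exact_mod_cast this
  have hsurj : Function.Surjective M.mulVecLin := by
    rw [← LinearMap.injective_iff_surjective]
    rw [Matrix.coe_mulVecLin]; exact hinj
  obtain ⟨s, hs⟩ := hsurj (fun i => nq i / 2)
  have hs' : ∀ i, ∑ j, (G i j : ℝ) * (s j : ℝ) = (nq i / 2 : ℚ) := by
    intro i
    have h8 : (M.mulVecLin s) i = nq i / 2 := by rw [hs]
    have h9 : ∑ j, G i j * s j = nq i / 2 := h8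
    exact_mod_cast h9
  set w := ∑ j : b, ((s j : ℝ)) • (j : EuclideanSpace ℝ (Fin d)) with hw
  have hwb : ∀ i : b, inner ℝ (i : EuclideanSpace ℝ (Fin d)) w = (nq i / 2 : ℚ) := by
    intro i
    rw [hw, inner_sum]
    simp_rw [inner_smul_right, hG]
    rw [← hs' i]
    apply Finset.sum_congr rfl
    intro j _; ring
  have hwu : w = u := by
    have hort : w - u ∈ (Submodule.span ℝ S)ᗮ := by
      rw [← hbspan, Submodule.mem_orthogonal]
      intro z hz
      refine Submodule.span_induction (p := fun z _ => inner ℝ z (w - u) = 0) ?_ ?_ ?_ ?_ hz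
      · intro z hzb
        rw [inner_sub_right, hwb ⟨z, hzb⟩, hub ⟨z, hzb⟩, sub_self]
      · exact inner_zero_left _
      · intro z1 z2 _ _ e1 e2; rw [inner_add_left, e1, e2, add_zero]
      · intro a z _ e; rw [inner_smul_left, e, mul_zero]
    rw [hspan, Submodule.top_orthogonal_eq_bot, Submodule.mem_bot] at hort
    exact sub_eq_zero.1 hort
  refine ⟨∑ j, s j * (nq j / 2), ?_⟩
  rw [← hun, ← real_inner_self_eq_norm_sq]
  nth_rewrite 1 [← hwu]
  rw [hw, sum_inner]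
  simp_rw [inner_smul_left, hub]
  push_cast
  simp

lemma infinite_dim {c : EuclideanSpace ℝ (Fin 1)} {ρ : ℝ}
    {X : Set (EuclideanSpace ℝ (Fin 1))} (h1 : X ⊆ Metric.sphere c ρ) : X.Finite := by
  have : X ⊆ {WithLp.toLp 2 (fun _ => c 0 + ρ), WithLp.toLp 2 (fun _ => c 0 - ρ)} := by
    intro x hx
    have h2 := h1 hx
    rw [Metric.mem_sphere, EuclideanSpace.dist_eq] at h2
    simp only [Fin.sum_univ_one, Real.dist_eq, sq_abs] at h2
    rw [Real.sqrt_sq_eq_abs] at h2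
    rcases abs_choice (x 0 - c 0) with h3 | h3
    · left
      ext i
      rw [Subsingleton.elim i 0]
      simp
      linarith
    · right
      rw [Set.mem_singleton_iff]
      ext i
      rw [Subsingleton.elim i 0]
      simp
      linarith
  exact Set.Finite.subset (Set.toFinite _) this

theorem result (d : ℕ) (hd : 0 < d) (ρ : ℝ) (hρ : 0 < ρ) (c : EuclideanSpace ℝ (Fin d)) :
    (∃ X : Set (EuclideanSpace ℝ (Fin d)), X ⊆ Metric.sphere c ρ ∧ X.Infinite ∧
      (∀ x ∈ X, ∀ y ∈ X, ∃ q : ℚ, dist x y = q) ∧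
      (∀ (n : EuclideanSpace ℝ (Fin d)) (t : ℝ), n ≠ 0 → ∃ x ∈ X, inner ℝ n x ≠ t)) ↔
    2 ≤ d ∧ ∃ q : ℚ, ρ ^ 2 = q := by
  constructor
  · rintro ⟨X, h1, h2, h3, h4⟩
    refine ⟨?_, radius_rational h1 h2.nonempty h3 h4⟩
    by_contra hlt
    have hd1 : d = 1 := by omega
    subst hd1
    exact h2 (infinite_dim h1)
  · rintro ⟨hd2, q, hq⟩
    obtain ⟨k, rfl⟩ := Nat.exists_eq_add_of_le' hd2
    have hq0 : 0 < q := by
      have : (0:ℝ) < q := by rw [← hq]; positivity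
      exact_mod_cast this
    exact hasSet_translate c (exists_all k ρ q hq0 hρ hq)

end Pool.Agent.Results.MP_209919_co.RationalSpheres
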